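import Mathlib
import Pool.Agent.Lib.helper12.BmcA

set_option autoImplicit false
set_option linter.unusedSectionVars false

open Filter Set MeasureTheory ProbabilityTheory Topology Pool.Agent.Lib.helper12.Bmc
open scoped ENNReal

namespace Pool.Agent.Results.MP_96db20_pr.Full

section defs
variable {G : Type} [Group G]

/-- Position of the particle with Ulam-Harris label `u` (the `i`-th child of `u` is `i :: u`). -/
def X (ζ : List ℕ → G) : List ℕ → G
  | [] => 1
  | i :: u => X ζ u * ζ (i :: u)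

/-- i.i.d. offspring numbers with law `π`, independent of i.i.d. increments with law `μ`. -/
noncomputable def brw [MeasurableSpace G] (μ : PMF G) (π : PMF ℕ) :
    Measure ((List ℕ → ℕ) × (List ℕ → G)) :=
  (Measure.infinitePi fun _ => π.toMeasure).prod (Measure.infinitePi fun _ => μ.toMeasure)

/-- Generation `n` of the Galton-Watson tree. -/
def gen (N : List ℕ → ℕ) (n : ℕ) : Set (List ℕ) := {u | u.length = n ∧ alive N u}

/-- Empirical distribution of generation `n`. -/
noncomputable def M (n : ℕ) (ω : (List ℕ → ℕ) × (List ℕ → G)) (x : G) : ℝ :=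
  ({u ∈ gen ω.1 n | X ω.2 u = x}.ncard : ℝ) / (gen ω.1 n).ncard

/-- Renyi entropy of order `α`. -/
noncomputable def H (α : ℝ) (ν : G → ℝ) : ℝ :=
  (1 - α)⁻¹ * Real.log (∑' g, if 0 < ν g then ν g ^ α else 0)

/-- Convolution powers. -/
noncomputable def conv (μ : PMF G) : ℕ → PMF G
  | 0 => PMF.pure 1
  | n + 1 => (conv μ n).bind fun x => μ.map fun y => x * y

end defs

variable {ι : Type} [Fintype ι] [DecidableEq ι]

instance : MeasurableSpace (FreeGroup ι) := ⊤

instance : MeasurableSingletonClass (FreeGroup ι) := ⟨fun _ => trivial⟩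

def V : ℕ → Finset (FreeGroup ι)
  | 0 => {1}
  | n + 1 => (V n ×ˢ Finset.univ).image fun p : FreeGroup ι × ι => p.1 * .of p.2

lemma V_pos : ∀ {n : ℕ} {x : FreeGroup ι}, x ∈ V n →
    ∃ l : List ι, x = .mk (l.map fun i => (i, true))
  | 0, x, h => ⟨[], Finset.mem_singleton.1 h⟩
  | n + 1, x, h => by
    simp only [V, Finset.mem_image, Finset.mem_product] at h
    obtain ⟨p, ⟨h, -⟩, rfl⟩ := h
    obtain ⟨l, e⟩ := V_pos h
    exact ⟨l ++ [p.2], by rw [e, List.map_append, ← FreeGroup.mul_mk]; rfl⟩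

lemma sum_V {R : Type} [AddCommMonoid R] (n : ℕ) (F : FreeGroup ι → R) :
    ∑ g ∈ V (n + 1), F g = ∑ x ∈ V n, ∑ i, F (x * .of i) := by
  rw [V, Finset.sum_image, Finset.sum_product]
  rintro ⟨x, i⟩ hx ⟨y, j⟩ hy h
  obtain ⟨l, rfl⟩ := V_pos (Finset.mem_product.1 hx).1
  obtain ⟨m, rfl⟩ := V_pos (Finset.mem_product.1 hy).1
  have r : ∀ l : List ι, FreeGroup.IsReduced (l.map fun i => (i, true)) := fun l => by
    simpa [FreeGroup.IsReduced, List.isChain_map] using
      (List.pairwise_of_forall (R := fun _ _ : ι => True) fun _ _ => trivial).isChain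
  have h' : FreeGroup.mk ((l ++ [i]).map fun i => (i, true)) =
      FreeGroup.mk ((m ++ [j]).map fun i => (i, true)) := by
    simp only [List.map_append, ← FreeGroup.mul_mk]; exact h
  have := FreeGroup.reduce.sound h'
  rw [(r _).reduce_eq, (r _).reduce_eq] at this
  have := List.append_inj' (List.map_injective_iff.2 (fun a b h => by simpa using h) this) rfl
  simp_all

noncomputable def φ (p : ι → ℝ) (g : FreeGroup ι) : ℝ :=
  Real.exp (FreeGroup.lift (fun i => Multiplicative.ofAdd (Real.log (p i))) g).toAdd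

variable {p : ι → ℝ}

lemma φ_pos (g : FreeGroup ι) : 0 < φ p g := Real.exp_pos _

lemma φ_mul (x y : FreeGroup ι) : φ p (x * y) = φ p x * φ p y := by simp [φ, Real.exp_add]

lemma φ_of (hp : ∀ i, 0 < p i) (i : ι) : φ p (.of i) = p i := by simp [φ, Real.exp_log (hp i)]

lemma sum_φ (hp : ∀ i, 0 < p i) (a : ℝ) : ∀ n, ∑ g ∈ V n, φ p g ^ a = (∑ i, p i ^ a) ^ n
  | 0 => by simp [V, φ]
  | n + 1 => by
    rw [sum_V, pow_succ, ← sum_φ hp a n, Finset.sum_mul_sum]
    simp only [φ_mul, φ_of hp, Real.mul_rpow (φ_pos _).le (hp _).le]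

lemma conv_eq (hp : ∀ i, 0 < p i) {q : PMF ι} (hq : ∀ i, q i = .ofReal (p i)) :
    ∀ n g, conv (q.map .of) n g = if g ∈ V n then .ofReal (φ p g) else 0
  | 0, g => by by_cases h : g = 1 <;> simp [conv, V, φ, h]
  | n + 1, g => by
    rw [← Finset.sum_ite_eq (V (n + 1)) g fun g => ENNReal.ofReal (φ p g), sum_V, conv, PMF.bind_apply, tsum_eq_sum (s := V n)
      fun x hx => by simp [conv_eq hp hq n, hx]]
    refine Finset.sum_congr rfl fun x hx => ?_
    rw [conv_eq hp hq n, if_pos hx, PMF.map_comp, PMF.map_apply, tsum_fintype, Finset.mul_sum]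
    refine Finset.sum_congr rfl fun i _ => ?_
    by_cases h : g = x * .of i <;>
      simp [h, hq, φ_mul, φ_of hp, ENNReal.ofReal_mul (φ_pos x).le]

def T : List ℕ → Finset (List ℕ)
  | [] => ∅
  | i :: u => insert (i :: u) (T u)

lemma T_len : ∀ {u w : List ℕ}, w ∈ T u → w.length ≤ u.length
  | [], _, h => by simp [T] at h
  | i :: u, w, h => by
    rcases Finset.mem_insert.1 h with rfl | h
    · rfl
    · exact (T_len h).trans (by simp)

lemma T_not (i : ℕ) (u : List ℕ) : i :: u ∉ T u := fun h => by simpa using T_len h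

lemma T_card : ∀ u, (T u).card = u.length
  | [] => rfl
  | i :: u => by rw [T, Finset.card_insert_of_notMem (T_not i u), T_card u]; rfl

lemma F_prod (b : ℝ) (ζ : List ℕ → FreeGroup ι) :
    ∀ u, ENNReal.ofReal (φ p (X ζ u) ^ b) = ∏ w ∈ T u, ENNReal.ofReal (φ p (ζ w) ^ b)
  | [] => by simp [X, T, φ]
  | i :: u => by
    rw [T, Finset.prod_insert (T_not i u), ← F_prod b ζ u, X, φ_mul,
      Real.mul_rpow (φ_pos _).le (φ_pos _).le, mul_comm,
      ENNReal.ofReal_mul (Real.rpow_pos_of_pos (φ_pos _) _).le]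

lemma m_X : ∀ u : List ℕ, Measurable fun ζ : List ℕ → FreeGroup ι => X ζ u
  | [] => measurable_const
  | i :: u => (measurable_of_countable fun z : FreeGroup ι × FreeGroup ι => z.1 * z.2).comp
      ((m_X u).prodMk (measurable_pi_apply (i :: u)))

lemma mom (hp : ∀ i, 0 < p i) {q : PMF ι} (hq : ∀ i, q i = .ofReal (p i)) (b : ℝ) (u : List ℕ) :
    ∫⁻ ζ, ENNReal.ofReal (φ p (X ζ u) ^ (b - 1)) ∂Measure.infinitePi (fun _ =>
      (q.map FreeGroup.of).toMeasure) = ENNReal.ofReal (∑ i, p i ^ b) ^ u.length := by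
  simp only [F_prod]
  rw [lintegral_prod_eq_prod_lintegral_of_indepFun _ _ (iIndepFun_infinitePi
    (X := fun _ g => ENNReal.ofReal (φ p g ^ (b - 1))) fun _ => measurable_of_countable _)
    fun w => (measurable_of_countable fun g => ENNReal.ofReal (φ p g ^ (b - 1))).comp
      (measurable_pi_apply w), ← T_card,
    ← Finset.prod_const]
  refine Finset.prod_congr rfl fun w _ => ?_
  let : MeasurableSpace ι := ⊤
  have : MeasurableSingletonClass ι := ⟨fun _ => trivial⟩
  rw [← lintegral_map (measurable_of_countable fun g => ENNReal.ofReal (φ p g ^ (b - 1)))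
    (measurable_pi_apply w), Measure.infinitePi_map_eval,
    ← PMF.toMeasure_map _ _ (measurable_of_countable _),
    lintegral_map (measurable_of_countable _) (measurable_of_countable _), lintegral_fintype,
    ENNReal.ofReal_sum_of_nonneg fun i _ => (Real.rpow_pos_of_pos (hp i) _).le]
  refine Finset.sum_congr rfl fun i _ => ?_
  rw [PMF.toMeasure_apply_singleton _ _ (measurableSet_singleton _), hq, φ_of hp,
    ← ENNReal.ofReal_mul (Real.rpow_pos_of_pos (hp i) _).le, ← Real.rpow_add_one (hp i).ne']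
  simp

lemma L_alive {k : ℕ} : ∀ {n : ℕ} {u : List ℕ}, u ∈ L k n → alive (fun _ => k) u
  | 0, u, h => by simp [L] at h; simp [h, alive]
  | n + 1, u, h => by
    simp only [L, Finset.mem_image, Finset.mem_product, Finset.mem_range] at h
    obtain ⟨p, ⟨h1, h⟩, rfl⟩ := h
    exact ⟨h1, L_alive h⟩

lemma L_card (k : ℕ) : ∀ n, (L k n).card = k ^ n
  | 0 => by simp [L]
  | n + 1 => by
    rw [L, Finset.card_image_of_injective _ fun a b h => Prod.ext (List.cons.inj h).1
      (List.cons.inj h).2, Finset.card_product, Finset.card_range, L_card k n, pow_succ']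

lemma gen_eq (k n : ℕ) : gen (fun _ => k) n = L k n :=
  Set.ext fun _ => ⟨fun h => h.1 ▸ mem_L h.2, fun h => ⟨len_L h, L_alive h⟩⟩

lemma X_mem {ζ : List ℕ → FreeGroup ι} (h : ∀ w, ζ w ∈ range FreeGroup.of) :
    ∀ u, X ζ u ∈ V u.length
  | [] => by simp [X, V]
  | i :: u => by
    obtain ⟨j, e⟩ := h (i :: u)
    exact Finset.mem_image.2 ⟨(X ζ u, j), by simp [X_mem h u], by simp [X, e]⟩

lemma ineq {a b c : ℝ} (N : ℕ) (hab : a ≤ b) (h0 : 0 ≤ b) (hb : b ≤ 1) (hc : 0 < c) (hN : 0 < N) :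
    (N : ℝ) ^ a ≤ c ^ b + N * c ^ (b - 1) := by
  have h1 : (1 : ℝ) ≤ N := by exact_mod_cast hN
  refine (Real.rpow_le_rpow_of_exponent_le h1 hab).trans ?_
  rcases le_total (N : ℝ) c with h | h
  · exact le_add_of_le_of_nonneg (Real.rpow_le_rpow (by positivity) h h0) (by positivity)
  · refine le_add_of_nonneg_of_le (by positivity) ?_
    rw [show b = 1 + (b - 1) by ring, Real.rpow_add (by positivity), Real.rpow_one]
    simp only [add_sub_cancel_left]
    exact mul_le_mul_of_nonneg_left (Real.rpow_le_rpow_of_nonpos hc h (by linarith)) (by positivity)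

lemma R_le (hp : ∀ i, 0 < p i) {a b : ℝ} (hab : a ≤ b) (h0 : 0 ≤ b) (hb : b ≤ 1)
    {ζ : List ℕ → FreeGroup ι} (h : ∀ w, ζ w ∈ range FreeGroup.of) (n : ℕ) :
    (∑' g, if 0 < M n (fun _ => 2, ζ) g then M n (fun _ => 2, ζ) g ^ a else 0) ≤
      ((2 ^ b * ∑ i, p i ^ b) ^ n + (2 ^ (b - 1)) ^ n * ∑ u ∈ L 2 n, φ p (X ζ u) ^ (b - 1)) /
        (2 ^ a) ^ n := by
  have e : ∀ g, M n (fun _ => 2, ζ) g = ((L 2 n).filter fun u => X ζ u = g).card / 2 ^ n :=
    fun g => by
      rw [M, gen_eq, ncard_coe_finset, L_card, ← ncard_coe_finset, Finset.coe_filter]; simp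
  have mv : ∀ u ∈ L 2 n, X ζ u ∈ V n := fun u hu => len_L hu ▸ X_mem h u
  have pw : ∀ c : ℝ, ((2 : ℝ) ^ n) ^ c = (2 ^ c) ^ n := fun c => by
    rw [← Real.rpow_natCast, ← Real.rpow_natCast, ← Real.rpow_mul zero_le_two,
      ← Real.rpow_mul zero_le_two, mul_comm]
  rw [tsum_eq_sum (s := V n) fun g hg => by
    rw [e, Finset.filter_eq_empty_iff.2 fun u hu (c : X ζ u = g) => hg (c ▸ mv u hu)]; simp,
    mul_pow, ← sum_φ hp, ← Finset.sum_fiberwise_of_maps_to mv, Finset.mul_sum, Finset.mul_sum,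
    ← Finset.sum_add_distrib, Finset.sum_div]
  refine Finset.sum_le_sum fun g _ => ?_
  have := φ_pos (p := p) g
  rw [Finset.sum_congr rfl fun u hu => by rw [(Finset.mem_filter.1 hu).2], Finset.sum_const,
    nsmul_eq_mul, e]
  split_ifs with c
  · rw [Real.div_rpow (by positivity) (by positivity), pw]
    gcongr
    have := ineq (c := 2 ^ n * φ p g) _ hab h0 hb (by positivity)
      (by simpa using c : 0 < ((L 2 n).filter fun u => X ζ u = g).card)
    rw [Real.mul_rpow (by positivity) (by positivity), Real.mul_rpow (by positivity)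
      (by positivity), pw, pw] at this
    linarith
  · positivity

lemma bc (hp : ∀ i, 0 < p i) {q : PMF ι} (hq : ∀ i, q i = .ofReal (p i)) (b : ℝ) {r : ℝ}
    (hr : 1 < r) (hS : 0 < ∑ i, p i ^ b) :
    ∀ᵐ ζ ∂Measure.infinitePi (fun _ : List ℕ => (q.map FreeGroup.of).toMeasure), ∀ᶠ n in atTop,
      ∑ u ∈ L 2 n, φ p (X ζ u) ^ (b - 1) ≤ (r * (2 * ∑ i, p i ^ b)) ^ n := by
  have m : ∀ u, Measurable fun ζ : List ℕ → FreeGroup ι => ENNReal.ofReal (φ p (X ζ u) ^ (b - 1)) :=
    fun u => (measurable_of_countable fun g => ENNReal.ofReal (φ p g ^ (b - 1))).comp (m_X u)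
  have : ∀ n, Measure.infinitePi (fun _ : List ℕ => (q.map FreeGroup.of).toMeasure)
      {ζ | ¬ ∑ u ∈ L 2 n, φ p (X ζ u) ^ (b - 1) ≤ (r * (2 * ∑ i, p i ^ b)) ^ n} ≤
      (ENNReal.ofReal r⁻¹) ^ n := fun n => by
    refine (measure_mono (t := {ζ | ENNReal.ofReal ((r * (2 * ∑ i, p i ^ b)) ^ n) ≤
      ∑ u ∈ L 2 n, ENNReal.ofReal (φ p (X ζ u) ^ (b - 1))}) fun ζ h => ?_).trans
      ((meas_ge_le_lintegral_div (Finset.measurable_sum _ fun u _ => m u).aemeasurable
      (by simp; positivity) ENNReal.ofReal_ne_top).trans ?_)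
    · rw [mem_ofPred_eq, ← ENNReal.ofReal_sum_of_nonneg
        fun u _ => (Real.rpow_pos_of_pos (φ_pos _) _).le]
      exact ENNReal.ofReal_le_ofReal (not_le.1 h).le
    · rw [lintegral_finsetSum _ fun u _ => m u, Finset.sum_congr rfl fun u hu => by
        rw [mom hp hq, len_L hu], Finset.sum_const, L_card, nsmul_eq_mul]
      refine ENNReal.div_le_of_le_mul (le_of_eq ?_)
      rw [ENNReal.ofReal_pow (by positivity), ← mul_pow, ← ENNReal.ofReal_mul (by positivity),
        ← mul_assoc, inv_mul_cancel₀ (by positivity), one_mul, ENNReal.ofReal_mul zero_le_two, mul_pow]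
      simp
  have h := measure_setOfPred_frequently_eq_zero (ne_top_of_le_ne_top (by
    rw [ENNReal.tsum_geometric]
    simpa [tsub_eq_zero_iff_le] using inv_lt_one_of_one_lt₀ hr) (ENNReal.tsum_le_tsum this))
  simpa only [ae_iff, not_eventually] using h

lemma weights {a : ℝ} (h0 : 0 ≤ a) (h1 : a < 1) : ∃ (m : ℕ) (p : Option (Fin m) → ℝ) (b : ℝ),
    a ≤ b ∧ b ≤ 1 ∧ (∀ i, 0 < p i) ∧ ∑ i, p i = 1 ∧ 2 ≤ ∑ i, p i ^ a ∧
      2 ^ b * ∑ i, p i ^ b < 2 := by
  set d := (1 + 2 * a) / 3 with hd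
  set b := (2 + a) / 3 with hb
  have d0 : 0 < d := by positivity
  have t0 : ∀ c, d < c → Tendsto (fun m : ℕ => (m : ℝ) ^ (1 - c / d)) atTop (𝓝 0) := fun c hc => by
    have := (tendsto_rpow_neg_atTop (y := c / d - 1) (by
      rw [sub_pos, one_lt_div d0]; exact hc)).comp tendsto_natCast_atTop_atTop
    simpa [Function.comp_def] using this
  have t1 := ((tendsto_rpow_atTop (y := 1 - a / d) (by
      rw [sub_pos, div_lt_one d0]; linarith)).comp tendsto_natCast_atTop_atTop).eventually_ge_atTop 2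
  have b1 : (1 : ℝ) < 2 ^ (1 - b) := Real.one_lt_rpow one_lt_two (by linarith)
  obtain ⟨m, e1, e2, e3, e4⟩ := (t1.and (((t0 b (by linarith)).eventually_lt_const
    (sub_pos.2 b1)).and (((t0 1 (by linarith)).eventually_lt_const one_pos).and
    (eventually_gt_atTop 0)))).exists
  have m0 : (0 : ℝ) < m := by exact_mod_cast e4
  have s : ∀ c, (m : ℝ) * ((m : ℝ) ^ (-1 / d)) ^ c = m ^ (1 - c / d) := fun c => by
    rw [← Real.rpow_mul m0.le, sub_eq_add_neg, Real.rpow_add m0, Real.rpow_one]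
    congr 2; ring
  have s1 := s 1
  rw [Real.rpow_one] at s1
  have z : 0 < (m : ℝ) ^ (1 - 1 / d) := by positivity
  refine ⟨m, fun i => i.elim (1 - m ^ (1 - 1 / d)) fun _ => m ^ (-1 / d), b, by linarith,
    by linarith, ?_, by simp [s1], ?_, ?_⟩
  · rintro (_ | i)
    · exact sub_pos.2 e3
    · exact Real.rpow_pos_of_pos m0 _
  · simp only [Fintype.sum_option, Option.elim, Finset.sum_const, Finset.card_univ,
      Fintype.card_fin, nsmul_eq_mul, s]
    exact le_add_of_nonneg_of_le (Real.rpow_nonneg (by linarith) _) e1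
  · simp only [Fintype.sum_option, Option.elim, Finset.sum_const, Finset.card_univ,
      Fintype.card_fin, nsmul_eq_mul, s]
    have := Real.rpow_le_one (x := 1 - m ^ (1 - 1 / d)) (z := b) (by linarith) (by linarith)
      (by linarith)
    calc _ < (2 : ℝ) ^ b * 2 ^ (1 - b) := by gcongr; linarith
      _ = 2 := by rw [← Real.rpow_add two_pos]; simp

theorem result (α : ℝ) (h0 : 0 ≤ α) (h1 : α < 1) : ∃ (G : Type) (_ : Group G) (_ : Group.FG G)
    (_ : Infinite G) (_ : Countable G) (_ : MeasurableSpace G) (_ : MeasurableSingletonClass G)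
    (μ : PMF G) (h c : ℝ), μ.support.Finite ∧
    Tendsto (fun n => H α (fun g => (conv μ n g).toReal) / n) atTop (𝓝 h) ∧ 2 ≤ Real.exp h ∧
    c < Real.log 2 ∧ ∀ᵐ ω ∂brw μ (PMF.pure 2), ∀ᶠ n in atTop, H α (M n ω) / n ≤ c := by
  obtain ⟨m, p, b, hab, hb, hp, hs, ha, hθ⟩ := weights h0 h1
  let q : PMF (Option (Fin m)) := PMF.ofFintype (fun i => .ofReal (p i)) (by
    rw [← ENNReal.ofReal_sum_of_nonneg fun i _ => (hp i).le, hs, ENNReal.ofReal_one])
  have hq : ∀ i, q i = .ofReal (p i) := fun _ => rfl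
  have hS : 0 < ∑ i, p i ^ b := Finset.sum_pos (fun i _ => Real.rpow_pos_of_pos (hp i) _)
    Finset.univ_nonempty
  set θ := 2 ^ b * ∑ i, p i ^ b with hθ'
  have θ0 : 0 < θ := by positivity
  have a2 : (2 : ℝ) ^ α < 2 := by
    simpa using Real.rpow_lt_rpow_of_exponent_lt one_lt_two h1
  obtain ⟨κ, k1, k2⟩ := exists_between (max_lt hθ a2)
  obtain ⟨k1, k3⟩ := max_lt_iff.1 k1
  have i0 : 0 < (1 - α)⁻¹ := inv_pos.2 (by linarith)
  have l2 := Real.log_pos one_lt_two
  have c1 : (1 - α)⁻¹ * Real.log (κ / 2 ^ α) < Real.log 2 := by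
    rw [Real.log_div (by linarith) (by positivity), Real.log_rpow two_pos,
      inv_mul_lt_iff₀ (by linarith)]
    linarith [Real.log_lt_log (by linarith) k2]
  obtain ⟨c, c1, c2⟩ := exists_between c1
  refine ⟨FreeGroup (Option (Fin m)), inferInstance, inferInstance, inferInstance, inferInstance,
    inferInstance, inferInstance, q.map .of, (1 - α)⁻¹ * Real.log (∑ i, p i ^ α), c,
    by simpa using (toFinite q.support).image _, ?_, ?_, c2, ?_⟩
  · refine tendsto_const_nhds.congr' ((eventually_gt_atTop 0).mono fun n hn => ?_)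
    simp only [H]
    rw [tsum_eq_sum (s := V n) fun g hg => by simp [conv_eq hp hq, hg],
      Finset.sum_congr (s₁ := V n) rfl fun g hg => by
        rw [conv_eq hp hq, if_pos hg, ENNReal.toReal_ofReal (φ_pos g).le, if_pos (φ_pos g)],
      sum_φ hp, Real.log_pow]
    field_simp
  · rw [← Real.log_le_iff_le_exp two_pos, le_inv_mul_iff₀ (by linarith)]
    nlinarith [Real.log_le_log two_pos ha]
  have A1 : ∀ᵐ N ∂Measure.infinitePi (fun _ : List ℕ => (PMF.pure 2).toMeasure), N = fun _ => 2 := by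
    simp only [funext_iff, ae_all_iff]
    exact fun u => (measurePreserving_eval_infinitePi _ u).quasiMeasurePreserving.ae
      (p := fun k => k = 2) (by simp [PMF.toMeasure_pure])
  have A2 : ∀ᵐ ζ ∂Measure.infinitePi (fun _ : List ℕ => (q.map FreeGroup.of).toMeasure),
      ∀ w, ζ w ∈ range FreeGroup.of := by
    simp only [ae_all_iff]
    refine fun u => (measurePreserving_eval_infinitePi (fun _ : List ℕ =>
      (q.map FreeGroup.of).toMeasure) u).quasiMeasurePreserving.ae
      (p := fun g => g ∈ range FreeGroup.of) ?_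
    rw [ae_iff, PMF.toMeasure_apply_eq_zero_iff _ MeasurableSet.of_discrete, PMF.support_map]
    exact disjoint_left.2 fun g ⟨i, _, e⟩ c => c ⟨i, e⟩
  have t : Tendsto (fun n : ℕ => (1 - α)⁻¹ * (Real.log 2 / n + Real.log (κ / 2 ^ α))) atTop
      (𝓝 ((1 - α)⁻¹ * (0 + Real.log (κ / 2 ^ α)))) :=
    ((tendsto_const_div_atTop_nhds_zero_nat _).add_const _).const_mul _
  filter_upwards [Measure.quasiMeasurePreserving_fst.ae A1, Measure.quasiMeasurePreserving_snd.ae
    (A2.and (bc hp hq b ((one_lt_div θ0).2 k1) hS))]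
  rintro ⟨N, ζ⟩ (rfl : N = _) ⟨h2, h3⟩
  filter_upwards [h3, t.eventually_lt_const (by simpa using c1), eventually_gt_atTop 0]
    with n h3 h4 hn
  refine le_trans ?_ h4.le
  have n0 : (0 : ℝ) < n := by exact_mod_cast hn
  have k4 : 1 ≤ (κ / 2 ^ α) ^ n := one_le_pow₀ ((one_le_div (by positivity)).2 k3.le)
  have hR := (R_le hp hab (h0.trans hab) hb h2 n).trans (show _ ≤ 2 * (κ / 2 ^ α) ^ n by
    rw [div_pow, ← mul_div_assoc, two_mul]
    gcongr
    refine (mul_le_mul_of_nonneg_left h3 (by positivity)).trans (le_of_eq ?_)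
    rw [← mul_pow, Real.rpow_sub_one two_ne_zero, hθ']
    congr 1
    field_simp)
  rw [H, mul_div_assoc]
  gcongr
  rw [div_le_iff₀ n0, add_mul, div_mul_cancel₀ _ n0.ne', mul_comm, ← Real.log_pow,
    ← Real.log_mul two_ne_zero (by positivity)]
  rcases eq_or_lt_of_le (tsum_nonneg fun g => show 0 ≤ if 0 < M n (fun _ => 2, ζ) g then
    M n (fun _ => 2, ζ) g ^ α else 0 by split_ifs with c <;> positivity) with e | e
  · rw [← e, Real.log_zero]; exact Real.log_nonneg (by linarith)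
  · exact Real.log_le_log e hR

end Pool.Agent.Results.MP_96db20_pr.Full
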